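import Mathlib

/-!
The group `N` of the pairs of a vector of `ℤ[i]²` and a skew-Hermitian matrix over `ℤ[i]`.
-/

set_option autoImplicit false

namespace Pool.Agent.Q104.TA

/-- Gaussian integers -/
abbrev R : Type := GaussianInt

/-- the lattice `ℤ[i]²` -/
abbrev V : Type := Fin 2 → R

/-- `2 × 2` matrices -/
abbrev Mt : Type := Matrix (Fin 2) (Fin 2) R

/-- the form `v w* - w v*` -/
def om (v w : V) : Mt := fun i j => v i * star (w j) - w i * star (v j)

@[simp] theorem om_apply (v w : V) (i j : Fin 2) :
    om v w i j = v i * star (w j) - w i * star (v j) := rfl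

/-- skew-Hermitian matrices -/
def SH : Submodule ℤ Mt where
  carrier := {X | ∀ i j, star (X j i) = - X i j}
  add_mem' := by
    intro X Y hX hY i j
    simp only [Set.mem_ofPred_eq] at hX hY
    rw [Matrix.add_apply, Matrix.add_apply, star_add, hX, hY]
    ring
  zero_mem' := by
    intro i j
    simp
  smul_mem' := by
    intro c X hX i j
    simp only [Set.mem_ofPred_eq] at hX
    rw [Matrix.smul_apply, Matrix.smul_apply, zsmul_eq_mul, zsmul_eq_mul, star_mul, hX]
    simp
    ring

theorem mem_SH (X : Mt) : X ∈ SH ↔ ∀ i j, star (X j i) = - X i j := Iff.rfl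

theorem om_mem (v w : V) : om v w ∈ SH := by
  rw [mem_SH]
  intro i j
  simp only [om_apply, star_sub, star_mul, star_star]
  ring

/-- the form with values in the skew-Hermitian matrices -/
def omS (v w : V) : SH := ⟨om v w, om_mem v w⟩

@[simp] theorem omS_val (v w : V) : (omS v w : Mt) = om v w := rfl

theorem omS_add_left (u v w : V) : omS (u + v) w = omS u w + omS v w := by
  apply Subtype.ext
  funext i j
  simp only [omS_val, om_apply, Submodule.coe_add, Matrix.add_apply, Pi.add_apply, star_add]
  ring

theorem omS_add_right (u v w : V) : omS u (v + w) = omS u v + omS u w := by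
  apply Subtype.ext
  funext i j
  simp only [omS_val, om_apply, Submodule.coe_add, Matrix.add_apply, Pi.add_apply, star_add]
  ring

theorem omS_self (v : V) : omS v v = 0 := by
  apply Subtype.ext
  funext i j
  simp only [omS_val, om_apply, Submodule.coe_zero, Matrix.zero_apply]
  ring

theorem omS_swap (v w : V) : omS v w = - omS w v := by
  apply Subtype.ext
  funext i j
  simp only [omS_val, om_apply, Submodule.coe_neg, Matrix.neg_apply]
  ring

theorem omS_zero_left (v : V) : omS 0 v = 0 := by
  apply Subtype.ext
  funext i j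
  simp

theorem omS_zero_right (v : V) : omS v 0 = 0 := by
  apply Subtype.ext
  funext i j
  simp

theorem omS_neg_left (v w : V) : omS (-v) w = - omS v w := by
  apply Subtype.ext
  funext i j
  simp only [omS_val, om_apply, Submodule.coe_neg, Matrix.neg_apply, Pi.neg_apply, star_neg]
  ring

theorem omS_neg_right (v w : V) : omS v (-w) = - omS v w := by
  apply Subtype.ext
  funext i j
  simp only [omS_val, om_apply, Submodule.coe_neg, Matrix.neg_apply, Pi.neg_apply, star_neg]
  ring

/-- the group -/
@[ext] structure N : Type where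
  /-- vector -/
  v : V
  /-- central part -/
  X : SH

namespace N

instance : Mul N := ⟨fun a b => ⟨a.v + b.v, a.X + b.X + omS a.v b.v⟩⟩
instance : One N := ⟨⟨0, 0⟩⟩
instance : Inv N := ⟨fun a => ⟨-a.v, -a.X⟩⟩

@[simp] theorem mul_v (a b : N) : (a * b).v = a.v + b.v := rfl
@[simp] theorem mul_X (a b : N) : (a * b).X = a.X + b.X + omS a.v b.v := rfl
@[simp] theorem one_v : (1 : N).v = 0 := rfl
@[simp] theorem one_X : (1 : N).X = 0 := rfl
@[simp] theorem inv_v (a : N) : (a⁻¹).v = -a.v := rfl
@[simp] theorem inv_X (a : N) : (a⁻¹).X = -a.X := rfl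

instance : Group N := Group.ofLeftAxioms
  (by
    intro a b c
    apply N.ext
    · simp only [mul_v]
      abel
    · simp only [mul_X, mul_v, omS_add_left, omS_add_right]
      abel)
  (by
    intro a
    apply N.ext
    · simp
    · simp [omS_zero_left])
  (by
    intro a
    apply N.ext
    · simp
    · simp [omS_neg_left, omS_self])

theorem pow_v (a : N) (n : ℕ) : (a ^ n).v = n • a.v := by
  induction n with
  | zero => simp
  | succ n ih => rw [pow_succ, mul_v, ih, succ_nsmul]

theorem omS_nsmul (v : V) (n : ℕ) : omS (n • v) v = 0 := by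
  induction n with
  | zero => simp [omS_zero_left]
  | succ n ih => rw [succ_nsmul, omS_add_left, ih, omS_self, add_zero]

theorem pow_X (a : N) (n : ℕ) : (a ^ n).X = n • a.X := by
  induction n with
  | zero => simp
  | succ n ih => rw [pow_succ, mul_X, ih, succ_nsmul, pow_v, omS_nsmul, add_zero]

/-- central elements -/
def c (X : SH) : N := ⟨0, X⟩

/-- vectors -/
def l (v : V) : N := ⟨v, 0⟩

@[simp] theorem c_v (X : SH) : (c X).v = 0 := rfl
@[simp] theorem c_X (X : SH) : (c X).X = X := rfl
@[simp] theorem l_v (v : V) : (l v).v = v := rfl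
@[simp] theorem l_X (v : V) : (l v).X = 0 := rfl

theorem c_add (X Y : SH) : c (X + Y) = c X * c Y := by
  apply N.ext
  · simp
  · simp [omS_zero_left]

theorem eq_l_mul_c (a : N) : a = l a.v * c a.X := by
  apply N.ext
  · simp
  · simp [omS_zero_right]

theorem l_add (v w : V) : l (v + w) = l v * l w * c (- omS v w) := by
  apply N.ext
  · simp
  · simp [omS_zero_right]

theorem comm_eq (a b : N) : a * b * a⁻¹ * b⁻¹ = c (2 • omS a.v b.v) := by
  apply N.ext
  · simp
  · simp only [mul_X, mul_v, inv_v, inv_X, omS_add_left, omS_neg_right, omS_neg_left, c_X, omS_self]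
    rw [omS_swap b.v a.v, two_nsmul]
    abel

theorem c_comm (X : SH) (a : N) : c X * a = a * c X := by
  apply N.ext
  · simp
  · simp only [mul_X, c_X, c_v, omS_zero_left, omS_zero_right]
    abel

end N

end Pool.Agent.Q104.TA
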