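import Mathlib
import Pool.Agent.Q104.TA.Grp

/-!
The action of the invertible matrices on the group `N`.
-/

set_option autoImplicit false

namespace Pool.Agent.Q104.TA

open Matrix

theorem mem_SH' (X : Mt) : X ∈ SH ↔ Xᴴ = -X := by
  rw [mem_SH]
  constructor
  · intro h
    funext i j
    rw [conjTranspose_apply, Matrix.neg_apply]
    exact h i j
  · intro h i j
    rw [← conjTranspose_apply, h, Matrix.neg_apply]

/-- `X ↦ A X A*` -/
def cj (A : Mt) : SH →+ SH where
  toFun X := ⟨A * X.1 * Aᴴ, by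
    rw [mem_SH', conjTranspose_mul, conjTranspose_mul, conjTranspose_conjTranspose,
      (mem_SH' X.1).1 X.2, ← Matrix.mul_assoc, Matrix.mul_neg, Matrix.neg_mul]⟩
  map_zero' := by
    apply Subtype.ext
    simp
  map_add' X Y := by
    apply Subtype.ext
    simp only [Submodule.coe_add]
    rw [Matrix.mul_add, Matrix.add_mul]

@[simp] theorem cj_val (A : Mt) (X : SH) : (cj A X : Mt) = A * X.1 * Aᴴ := rfl

theorem cj_one (X : SH) : cj 1 X = X := by
  apply Subtype.ext
  simp

theorem cj_mul (A B : Mt) (X : SH) : cj (A * B) X = cj A (cj B X) := by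
  apply Subtype.ext
  simp only [cj_val, conjTranspose_mul, Matrix.mul_assoc]

theorem om_eq (v w : V) : om v w = vecMulVec v (star w) - vecMulVec w (star v) := by
  funext i j
  simp [vecMulVec_apply, om]

theorem omS_mulVec (A : Mt) (v w : V) : omS (A *ᵥ v) (A *ᵥ w) = cj A (omS v w) := by
  apply Subtype.ext
  rw [cj_val, omS_val, omS_val, om_eq, om_eq, Matrix.mul_sub, Matrix.sub_mul, mul_vecMulVec,
    mul_vecMulVec, vecMulVec_mul, vecMulVec_mul, star_mulVec, star_mulVec]

/-- the automorphism given by an invertible matrix -/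
def act : Mtˣ →* MulAut N where
  toFun A :=
    { toFun := fun a => ⟨A.1 *ᵥ a.v, cj A.1 a.X⟩
      invFun := fun a => ⟨(A⁻¹).1 *ᵥ a.v, cj (A⁻¹).1 a.X⟩
      left_inv := by
        intro a
        apply N.ext
        · show (A⁻¹).1 *ᵥ (A.1 *ᵥ a.v) = a.v
          rw [Matrix.mulVec_mulVec, Units.inv_mul, Matrix.one_mulVec]
        · show cj (A⁻¹).1 (cj A.1 a.X) = a.X
          rw [← cj_mul, Units.inv_mul, cj_one]
      right_inv := by
        intro a
        apply N.ext
        · show A.1 *ᵥ ((A⁻¹).1 *ᵥ a.v) = a.v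
          rw [Matrix.mulVec_mulVec, Units.mul_inv, Matrix.one_mulVec]
        · show cj A.1 (cj (A⁻¹).1 a.X) = a.X
          rw [← cj_mul, Units.mul_inv, cj_one]
      map_mul' := by
        intro a b
        apply N.ext
        · show A.1 *ᵥ (a.v + b.v) = A.1 *ᵥ a.v + A.1 *ᵥ b.v
          rw [Matrix.mulVec_add]
        · show cj A.1 (a.X + b.X + omS a.v b.v)
            = cj A.1 a.X + cj A.1 b.X + omS (A.1 *ᵥ a.v) (A.1 *ᵥ b.v)
          rw [omS_mulVec, map_add, map_add] }
  map_one' := by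
    apply MulEquiv.ext
    intro a
    apply N.ext
    · show (1 : Mt) *ᵥ a.v = a.v
      rw [Matrix.one_mulVec]
    · show cj 1 a.X = a.X
      rw [cj_one]
  map_mul' := by
    intro A B
    apply MulEquiv.ext
    intro a
    apply N.ext
    · show (A.1 * B.1) *ᵥ a.v = A.1 *ᵥ (B.1 *ᵥ a.v)
      rw [Matrix.mulVec_mulVec]
    · show cj (A.1 * B.1) a.X = cj A.1 (cj B.1 a.X)
      rw [cj_mul]

@[simp] theorem act_v (A : Mtˣ) (a : N) : (act A a).v = A.1 *ᵥ a.v := rfl
@[simp] theorem act_X (A : Mtˣ) (a : N) : (act A a).X = cj A.1 a.X := rfl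

/-- The matrix with trace `2 + i` -/
def A0 : Mt := !![0, -1; 1, ⟨2, 1⟩]

/-- its inverse -/
def A0' : Mt := !![⟨2, 1⟩, 1; -1, 0]

theorem A0_mul : A0 * A0' = 1 := by decide

theorem A0'_mul : A0' * A0 = 1 := by decide

/-- the unit -/
def U0 : Mtˣ := ⟨A0, A0', A0_mul, A0'_mul⟩

end Pool.Agent.Q104.TA
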