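import Mathlib
import Pool.Agent.Q104.TA.Act

/-!
Finiteness of the lattices.
-/

set_option autoImplicit false

namespace Pool.Agent.Q104.TA

open Matrix

/-- `ℤ[i] = ℤ²` -/
def eqR : R ≃ₗ[ℤ] ℤ × ℤ where
  toFun z := (z.re, z.im)
  invFun z := ⟨z.1, z.2⟩
  map_add' _ _ := rfl
  map_smul' m z := by
    rw [zsmul_eq_mul]
    simp
  left_inv _ := rfl
  right_inv _ := rfl

instance : Module.Finite ℤ R := Module.Finite.equiv eqR.symm
instance : Module.Finite ℤ V := Module.Finite.pi
instance : Module.Finite ℤ Mt := inferInstanceAs (Module.Finite ℤ (Fin 2 → Fin 2 → R))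
instance : Module.IsTorsionFree ℤ Mt :=
  inferInstanceAs (Module.IsTorsionFree ℤ (Fin 2 → Fin 2 → R))
instance : Module.IsTorsionFree ℤ SH := inferInstance
instance : Module.Free ℤ V := inferInstance
instance : Module.Finite ℤ SH := inferInstance
instance : Module.Free ℤ SH := inferInstance

theorem finite_coker {M : Type} [AddCommGroup M] [Module.Free ℤ M] [Module.Finite ℤ M]
    (f : M →ₗ[ℤ] M) (hf : Function.Injective f) : Finite (M ⧸ LinearMap.range f) :=
  Submodule.finiteQuotientOfFreeOfRankEq _ (LinearMap.finrank_range_of_inj hf)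

end Pool.Agent.Q104.TA
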