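import Mathlib
import Pool.Agent.Q104.TA.Lat

/-!
The fixed points of the powers of the tame automorphism.
-/

set_option autoImplicit false

namespace Pool.Agent.Q104.TA

open Matrix

/-- `Φ + Φ⁻¹` -/
def T (X : SH) : SH := cj A0 X + cj A0' X

theorem A0_star : A0ᴴ = !![0, 1; -1, ⟨2, -1⟩] := by decide

theorem A0'_star : A0'ᴴ = !![⟨2, -1⟩, -1; 1, 0] := by decide

theorem T_mat (X : Mt) :
    A0 * (A0 * X * A0ᴴ + A0' * X * A0'ᴴ) * A0ᴴ + A0' * (A0 * X * A0ᴴ + A0' * X * A0'ᴴ) * A0'ᴴ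
      = (5 : R) • (A0 * X * A0ᴴ + A0' * X * A0'ᴴ) - (2 : R) • X := by
  rw [A0_star, A0'_star, Matrix.eta_fin_two X]
  generalize X 0 0 = a
  generalize X 0 1 = b
  generalize X 1 0 = c
  generalize X 1 1 = d
  have ht : (⟨2, 1⟩ : R) * ⟨2, -1⟩ = 5 := by decide
  have hs : (⟨2, 1⟩ : R) ^ 2 + ⟨2, -1⟩ ^ 2 = 6 := by decide
  unfold A0 A0'
  generalize (⟨2, 1⟩ : R) = t at *
  generalize (⟨2, -1⟩ : R) = s at *
  simp only [Matrix.mul_fin_two, Matrix.of_add_of, Matrix.smul_of, Matrix.of_sub_of,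
    Matrix.cons_add_cons, Matrix.smul_cons, Matrix.cons_sub_cons, Matrix.empty_add_empty,
    Matrix.smul_empty, Matrix.empty_sub_empty, smul_eq_mul]
  have h : ∀ {p q r u p' q' r' u' : R}, p = p' → q = q' → r = r' → u = u' →
      !![p, q; r, u] = !![p', q'; r', u'] := by
    rintro p q r u _ _ _ _ rfl rfl rfl rfl
    rfl
  apply h
  · grind
  · grind
  · grind
  · grind

theorem T_sq (X : SH) : T (T X) = (5 : ℤ) • T X - (2 : ℤ) • X := by
  apply Subtype.ext
  have h := T_mat X.1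
  have h5 : (5 : R) • (A0 * X.1 * A0ᴴ + A0' * X.1 * A0'ᴴ)
      = (5 : ℤ) • (A0 * X.1 * A0ᴴ + A0' * X.1 * A0'ᴴ) := by
    rw [← Int.cast_smul_eq_zsmul R]
    norm_num
  have h2 : (2 : R) • X.1 = (2 : ℤ) • X.1 := by
    rw [← Int.cast_smul_eq_zsmul R]
    norm_num
  rw [h5, h2] at h
  exact h

theorem cj_A0_A0' (X : SH) : cj A0 (cj A0' X) = X := by
  rw [← cj_mul, A0_mul, cj_one]

theorem cj_A0'_A0 (X : SH) : cj A0' (cj A0 X) = X := by
  rw [← cj_mul, A0'_mul, cj_one]

/-- the coefficients of `Φⁿ + Φ⁻ⁿ = a n + b n T` -/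
def ab : ℕ → (ℤ × ℤ) × (ℤ × ℤ)
  | 0 => ((2, 0), (0, 1))
  | n + 1 => ((ab n).2, (-2 * (ab n).2.2 - (ab n).1.1, (ab n).2.1 + 5 * (ab n).2.2 - (ab n).1.2))

theorem sum_pow (X : SH) (n : ℕ) :
    (cj A0)^[n] X + (cj A0')^[n] X = (ab n).1.1 • X + (ab n).1.2 • T X ∧
    (cj A0)^[n + 1] X + (cj A0')^[n + 1] X = (ab n).2.1 • X + (ab n).2.2 • T X := by
  induction n with
  | zero =>
    constructor
    · simp [ab, two_smul]
    · simp [ab, T]
  | succ n ih =>
    refine ⟨ih.2, ?_⟩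
    have h1 : T ((cj A0)^[n + 1] X + (cj A0')^[n + 1] X)
        = ((cj A0)^[n + 2] X + (cj A0')^[n + 2] X) + ((cj A0)^[n] X + (cj A0')^[n] X) := by
      unfold T
      rw [map_add, map_add, Function.iterate_succ_apply' _ (n + 1),
        Function.iterate_succ_apply' _ (n + 1)]
      rw [Function.iterate_succ_apply' (cj A0') n, Function.iterate_succ_apply' (cj A0) n,
        cj_A0_A0', cj_A0'_A0]
      abel
    have h2 : T ((ab n).2.1 • X + (ab n).2.2 • T X)
        = (ab n).2.1 • T X + (ab n).2.2 • ((5 : ℤ) • T X - (2 : ℤ) • X) := by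
      rw [← T_sq]
      unfold T
      simp only [map_add, map_zsmul, smul_add]
      abel
    rw [ih.2, ih.1, h2] at h1
    have h3 : (cj A0)^[n + 2] X + (cj A0')^[n + 2] X
        = (ab n).2.1 • T X + (ab n).2.2 • ((5 : ℤ) • T X - (2 : ℤ) • X)
          - ((ab n).1.1 • X + (ab n).1.2 • T X) := by
      rw [h1]
      abel
    show (cj A0)^[n + 2] X + (cj A0')^[n + 2] X
      = (-2 * (ab n).2.2 - (ab n).1.1) • X + ((ab n).2.1 + 5 * (ab n).2.2 - (ab n).1.2) • T X
    rw [h3]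
    module

/-- the real root of `x ^ 2 = 5 x - 2` -/
noncomputable def tau : ℝ := (5 + √17) / 2

theorem tau_sq : tau * tau = 5 * tau - 2 := by
  have h : √17 * √17 = (17 : ℝ) := Real.mul_self_sqrt (by norm_num)
  unfold tau
  linear_combination h / 4

theorem tau_gt : 4 < tau := by
  have h : (3 : ℝ) < √17 := by
    rw [Real.lt_sqrt (by norm_num)]
    norm_num
  unfold tau
  linarith

theorem ab_gt (n : ℕ) : (2 : ℝ) ≤ (ab n).1.1 + (ab n).1.2 * tau ∧
    ((ab n).1.1 + (ab n).1.2 * tau : ℝ) < (ab n).2.1 + (ab n).2.2 * tau := by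
  have hg := tau_gt
  have ht := tau_sq
  induction n with
  | zero =>
    constructor
    · simp [ab]
    · simp only [ab]
      push_cast
      linarith
  | succ n ih =>
    obtain ⟨h1, h2⟩ := ih
    simp only [ab]
    refine ⟨by linarith, ?_⟩
    push_cast
    set p : ℝ := (ab n).1.1 + (ab n).1.2 * tau with hp
    set q : ℝ := (ab n).2.1 + (ab n).2.2 * tau with hq
    have he : (-2 * ((ab n).2.2 : ℝ) - (ab n).1.1) + ((ab n).2.1 + 5 * (ab n).2.2 - (ab n).1.2) * tau
        = tau * q - p := by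
      rw [hp, hq]
      linear_combination (-((ab n).2.2 : ℝ)) * ht
    rw [he]
    nlinarith

theorem ab_ne (n : ℕ) (hn : 0 < n) : ¬ ((ab n).1.1 = 2 ∧ (ab n).1.2 = 0) := by
  rintro ⟨h1, h2⟩
  obtain ⟨m, rfl⟩ : ∃ m, n = m + 1 := ⟨n - 1, by omega⟩
  have h := ab_gt m
  simp only [ab] at h1 h2
  rw [h1, h2] at h
  push_cast at h
  linarith [h.1, h.2]

theorem sq17 {x y : ℤ} (h : x ^ 2 = 17 * y ^ 2) : y = 0 := by
  by_contra hy
  have hp : Irrational (√(17 : ℕ)) := Nat.Prime.irrational_sqrt (by norm_num)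
  apply hp
  refine ⟨|(x : ℚ) / y|, ?_⟩
  push_cast
  rw [eq_comm, Real.sqrt_eq_iff_mul_self_eq (by norm_num) (by positivity), abs_mul_abs_self]
  have hy' : (y : ℝ) ≠ 0 := by exact_mod_cast hy
  have h' : (x : ℝ) ^ 2 = 17 * y ^ 2 := by exact_mod_cast h
  field_simp
  linarith

theorem iter_cj (B : Mt) (n : ℕ) (X : SH) : (cj B)^[n] X = cj (B ^ n) X := by
  induction n with
  | zero => simp [cj_one]
  | succ n ih => rw [Function.iterate_succ_apply', ih, ← cj_mul, pow_succ']

theorem fix_X {n : ℕ} (hn : 0 < n) {X : SH} (h : cj (A0 ^ n) X = X) : X = 0 := by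
  by_contra hX
  rw [← iter_cj] at h
  have h' : (cj A0')^[n] X = X := by
    have hl : Function.LeftInverse (cj A0') (cj A0) := cj_A0'_A0
    have := hl.iterate n X
    rw [h] at this
    exact this
  have hs := (sum_pow X n).1
  rw [h, h'] at hs
  set a := (ab n).1.1 with ha
  set b := (ab n).1.2 with hb
  set c := 2 - a with hc
  have h1 : b • T X = c • X := by
    have : c • X = (X + X) - a • X := by
      rw [hc, sub_smul, two_smul]
    rw [this, hs]
    abel
  have h2 : T (b • T X) = T (c • X) := by rw [h1]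
  have hTs : ∀ (m : ℤ) (Y : SH), T (m • Y) = m • T Y := by
    intro m Y
    unfold T
    rw [map_zsmul, map_zsmul, smul_add]
  rw [hTs, hTs, T_sq] at h2
  have h3 : (c * c - 5 * b * c + 2 * b * b) • X = 0 := by
    have e1 : b • (b • ((5 : ℤ) • T X - (2 : ℤ) • X)) = b • (c • T X) := by rw [h2]
    have e2 : b • (c • T X) = c • (c • X) := by
      rw [smul_comm, h1]
    have e3 : b • (b • ((5 : ℤ) • T X - (2 : ℤ) • X)) = (5 * b) • (c • X) - (2 * b * b) • X := by
      rw [← h1]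
      module
    rw [e2, e3] at e1
    have : (c * c - 5 * b * c + 2 * b * b) • X
        = c • (c • X) - ((5 * b) • (c • X) - (2 * b * b) • X) := by module
    rw [this, e1, sub_self]
  have h4 : c * c - 5 * b * c + 2 * b * b = 0 := by
    rcases smul_eq_zero.1 h3 with h | h
    · exact h
    · exact absurd h hX
  have h5 : (2 * c - 5 * b) ^ 2 = 17 * b ^ 2 := by linear_combination 4 * h4
  have hb0 := sq17 h5
  rw [hb0] at h4
  have hc0 : c = 0 := by
    have : c * c = 0 := by linarith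
    exact mul_self_eq_zero.1 this
  exact ab_ne n hn ⟨by omega, hb0⟩

/-- the unit `i` -/
def I : R := ⟨0, 1⟩

theorem star_I : star I = -I := by decide

theorem I_sq : I * I = -1 := by decide

theorem zero_of_omS {v : V} (h : omS v (I • v) = 0) : v = 0 := by
  funext i
  have h3 : (omS v (I • v) : Mt) i i = 0 := by
    rw [h]
    rfl
  rw [omS_val, om_apply, Pi.smul_apply, smul_eq_mul, star_mul, star_I] at h3
  have h4 : I * (v i * star (v i)) = 0 := by
    have h5 : (2 : R) * (I * (v i * star (v i))) = 0 := by linear_combination - h3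
    exact (mul_eq_zero.1 h5).resolve_left (by decide)
  have h6 := (mul_eq_zero.1 h4).resolve_left (by decide)
  rcases mul_eq_zero.1 h6 with h7 | h7
  · exact h7
  · exact star_eq_zero.1 h7

theorem fix_v {n : ℕ} (hn : 0 < n) {v : V} (h : A0 ^ n *ᵥ v = v) : v = 0 := by
  have h1 : cj (A0 ^ n) (omS v (I • v)) = omS v (I • v) := by
    rw [← omS_mulVec, Matrix.mulVec_smul, h]
  exact zero_of_omS (fix_X hn h1)

end Pool.Agent.Q104.TA
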