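import Mathlib
import Pool.Agent.Q104.TA.Fix

/-!
The structure of the automorphisms of `N`.
-/

set_option autoImplicit false

namespace Pool.Agent.Q104.TA

open Matrix

theorem mem_center (x : N) : x ∈ Subgroup.center N ↔ x.v = 0 := by
  constructor
  · intro h
    rw [Subgroup.mem_center_iff] at h
    have h1 := N.comm_eq x (N.l (I • x.v))
    have h2 : x * N.l (I • x.v) * x⁻¹ * (N.l (I • x.v))⁻¹ = 1 := by
      rw [← h (N.l (I • x.v))]
      group
    rw [h2] at h1
    have h3 : (0 : SH) = 2 • omS x.v (I • x.v) := congrArg N.X h1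
    have h4 : omS x.v (I • x.v) = 0 := by
      have h5 : (2 : ℤ) • omS x.v (I • x.v) = 0 := by
        rw [two_smul, ← two_nsmul]
        exact h3.symm
      rcases smul_eq_zero.1 h5 with h | h
      · norm_num at h
      · exact h
    exact zero_of_omS h4
  · intro h
    rw [Subgroup.mem_center_iff]
    intro g
    have hx : x = N.c x.X := by
      apply N.ext
      · simp [h]
      · simp
    rw [hx, N.c_comm]

theorem two_inj {X Y : SH} (h : 2 • X = 2 • Y) : X = Y := by
  have h5 : (2 : ℤ) • (X - Y) = 0 := by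
    rw [two_smul, ← two_nsmul, smul_sub, h, sub_self]
  rcases smul_eq_zero.1 h5 with h | h
  · norm_num at h
  · exact sub_eq_zero.1 h

variable (ψ : MulAut N)

/-- the map on the vectors -/
def gv (v : V) : V := (ψ (N.l v)).v

/-- the map on the centre -/
def hX (X : SH) : SH := (ψ (N.c X)).X

theorem c_v_zero (X : SH) : (ψ (N.c X)).v = 0 := by
  rw [← mem_center]
  have h : N.c X ∈ Subgroup.center N := by
    rw [mem_center]
    rfl
  rw [Subgroup.mem_center_iff] at h ⊢
  intro g
  have h1 := h (ψ.symm g)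
  have h2 := congrArg ψ h1
  rw [map_mul, map_mul] at h2
  simpa using h2

theorem psi_c (X : SH) : ψ (N.c X) = N.c (hX ψ X) := by
  apply N.ext
  · exact c_v_zero ψ X
  · rfl

theorem psi_v (a : N) : (ψ a).v = gv ψ a.v := by
  conv_lhs => rw [N.eq_l_mul_c a]
  rw [map_mul, N.mul_v, c_v_zero, add_zero]
  rfl

theorem gv_add (v w : V) : gv ψ (v + w) = gv ψ v + gv ψ w := by
  have h : (N.l v * N.l w).v = v + w := rfl
  rw [← h, ← psi_v, map_mul, N.mul_v]
  rfl

theorem hX_add (X Y : SH) : hX ψ (X + Y) = hX ψ X + hX ψ Y := by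
  have h : N.c (hX ψ (X + Y)) = N.c (hX ψ X + hX ψ Y) := by
    rw [← psi_c, N.c_add, map_mul, psi_c, psi_c, N.c_add]
  exact congrArg N.X h

theorem gv_inv (v : V) : gv ψ⁻¹ (gv ψ v) = v := by
  show gv ψ⁻¹ ((ψ (N.l v)).v) = v
  rw [← psi_v]
  show (ψ⁻¹ (ψ (N.l v))).v = v
  rw [MulAut.inv_apply_self]
  rfl

theorem gv_inv' (v : V) : gv ψ (gv ψ⁻¹ v) = v := by
  have h := gv_inv ψ⁻¹ v
  rwa [inv_inv] at h

theorem hX_omS (v w : V) : hX ψ (omS v w) = omS (gv ψ v) (gv ψ w) := by
  apply two_inj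
  have h := congrArg ψ (N.comm_eq (N.l v) (N.l w))
  rw [map_mul, map_mul, map_mul, map_inv, map_inv, N.comm_eq, psi_c] at h
  have h1 := congrArg N.X h
  simp only [N.c_X, N.l_v] at h1
  have h2 : hX ψ (2 • omS v w) = 2 • hX ψ (omS v w) := by
    rw [two_nsmul, hX_add, two_nsmul]
  rw [← h2, ← h1]
  rfl

theorem omS_I (v x : V) : omS (I • v) x = - omS v (I • x) := by
  apply Subtype.ext
  funext i j
  simp only [omS_val, om_apply, Submodule.coe_neg, Matrix.neg_apply, Pi.smul_apply, smul_eq_mul,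
    star_mul, star_I]
  ring

/-- the transported complex structure -/
def J (a : V) : V := gv ψ (I • gv ψ⁻¹ a)

theorem gv_I (v : V) : gv ψ (I • v) = J ψ (gv ψ v) := by
  unfold J
  rw [gv_inv]

theorem J_add (a b : V) : J ψ (a + b) = J ψ a + J ψ b := by
  unfold J
  rw [gv_add, smul_add, gv_add]

theorem gv_neg (v : V) : gv ψ (-v) = - gv ψ v := by
  have h := gv_add ψ v (-v)
  have h0 := gv_add ψ 0 0
  rw [add_zero] at h0
  have h1 : gv ψ 0 = 0 := by
    have := h0
    rwa [left_eq_add] at this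
  rw [add_neg_cancel, h1] at h
  exact (neg_eq_of_add_eq_zero_right h.symm).symm

theorem J_J (a : V) : J ψ (J ψ a) = -a := by
  unfold J
  rw [gv_inv, smul_smul, I_sq, neg_one_smul, gv_neg, gv_inv']

theorem J_om (a b : V) : omS (J ψ a) b = - omS a (J ψ b) := by
  have h : omS (J ψ (gv ψ (gv ψ⁻¹ a))) (gv ψ (gv ψ⁻¹ b))
      = - omS (gv ψ (gv ψ⁻¹ a)) (J ψ (gv ψ (gv ψ⁻¹ b))) := by
    rw [← gv_I, ← gv_I, ← hX_omS, ← hX_omS, omS_I]
    have h1 := hX_add ψ (omS (gv ψ⁻¹ a) (I • gv ψ⁻¹ b)) (-omS (gv ψ⁻¹ a) (I • gv ψ⁻¹ b))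
    have h0 := hX_add ψ 0 0
    rw [add_zero, left_eq_add] at h0
    rw [add_neg_cancel, h0] at h1
    exact (neg_eq_of_add_eq_zero_right h1.symm).symm
  rwa [gv_inv', gv_inv'] at h

/-- the determinant -/
def dt (a b : V) : R := a 0 * b 1 - a 1 * b 0

theorem star_I_mul (z : R) : star (I * z) = - I * star z := by
  rw [star_mul, star_I]
  ring

/-- `J a` is a multiple of `a` -/
theorem J_par (a : V) : dt a (J ψ a) = 0 := by
  by_cases ha : a = 0
  · subst ha
    simp [dt]
  -- the key relation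
  have key : ∀ b : V, dt a (J ψ a) * star (dt a b) = dt a b * star (dt a (J ψ a)) := by
    intro b
    have h := congrArg Subtype.val (J_om ψ a b)
    have e : ∀ i j, J ψ a i * star (b j) - b i * star (J ψ a j)
        = - (a i * star (J ψ b j) - J ψ b i * star (a j)) := by
      intro i j
      have := congrFun (congrFun h i) j
      simpa [om] using this
    have e00 := e 0 0
    have e01 := e 0 1
    have e10 := e 1 0
    have e11 := e 1 1
    simp only [dt, star_sub, star_mul]
    linear_combination (a 0 * star (a 0)) * e11 - (a 0 * star (a 1)) * e10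
      - (a 1 * star (a 0)) * e01 + (a 1 * star (a 1)) * e00
  have hb : ∃ b : V, dt a b ≠ 0 := by
    by_contra hcon
    push Not at hcon
    apply ha
    have h1 := hcon ![1, 0]
    have h2 := hcon ![0, 1]
    simp [dt] at h1 h2
    funext i
    fin_cases i
    · exact h2
    · exact h1
  obtain ⟨b, hb⟩ := hb
  have k1 := key b
  have k2 := key (I • b)
  have hs : dt a (I • b) = I * dt a b := by
    simp only [dt, Pi.smul_apply, smul_eq_mul]
    ring
  rw [hs, star_I_mul] at k2
  have k3 : (2 : R) * (I * (dt a (J ψ a) * star (dt a b))) = 0 := by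
    linear_combination - k2 + I * k1
  have k4 := (mul_eq_zero.1 ((mul_eq_zero.1 k3).resolve_left (by decide))).resolve_left (by decide)
  rcases mul_eq_zero.1 k4 with h | h
  · exact h
  · exact absurd (star_eq_zero.1 h) hb

theorem J_pol (a b : V) : dt a (J ψ b) + dt b (J ψ a) = 0 := by
  have h := J_par ψ (a + b)
  have h1 := J_par ψ a
  have h2 := J_par ψ b
  rw [J_add] at h
  simp only [dt, Pi.add_apply] at *
  linear_combination h - h1 - h2

theorem J_mul : ∃ p : R, (p = I ∨ p = -I) ∧ ∀ a, J ψ a = p • a := by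
  have e1 := J_par ψ ![1, 0]
  have e2 := J_par ψ ![0, 1]
  have e12 := J_pol ψ ![1, 0] ![0, 1]
  simp [dt] at e1 e2 e12
  have hall : ∀ a, J ψ a = (J ψ ![1, 0] 0) • a := by
    intro a
    have h1 := J_pol ψ a ![1, 0]
    have h2 := J_pol ψ a ![0, 1]
    simp [dt] at h1 h2
    funext i
    fin_cases i
    · show J ψ a 0 = J ψ ![1, 0] 0 * a 0
      linear_combination -h2 + a 0 * e12 - a 1 * e2
    · show J ψ a 1 = J ψ ![1, 0] 0 * a 1
      linear_combination h1 - a 0 * e1
  refine ⟨J ψ ![1, 0] 0, ?_, hall⟩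
  set p := J ψ ![1, 0] 0 with hp
  have h := J_J ψ ![1, 0]
  rw [hall, hall, smul_smul] at h
  have h1 := congrFun h 0
  simp at h1
  have h2 : (p - I) * (p + I) = 0 := by linear_combination h1 - I_sq
  rcases mul_eq_zero.1 h2 with h | h
  · left
    exact sub_eq_zero.1 h
  · right
    exact eq_neg_of_add_eq_zero_left h

theorem gg_I (v : V) : gv ψ (gv ψ (I • v)) = I • gv ψ (gv ψ v) := by
  obtain ⟨p, hp, h⟩ := J_mul ψ
  rw [gv_I, h]
  rcases hp with rfl | rfl
  · rw [gv_I, h]
  · rw [neg_smul, gv_neg, gv_I, h, neg_smul, neg_neg]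

end Pool.Agent.Q104.TA
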