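import Mathlib
import Pool.Agent.Q104.TA.Str

/-!
Every automorphism of `N` has an eigenvalue of absolute value one.
-/

set_option autoImplicit false

namespace Pool.Agent.Q104.TA

open Matrix

/-- `μ` is an eigenvalue of the map induced by `φ` on the complexification of one of the quotients
`Z_{i+1} / Z_i` of the upper central series (`f` is an eigenvector of the dual map). -/
def IsEigenvalue {G : Type} [Group G] (φ : MulAut G) (μ : ℂ) : Prop :=
  ∃ (i : ℕ) (f : G → ℂ),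
    (∀ x ∈ Subgroup.upperCentralSeries G (i + 1), ∀ y ∈ Subgroup.upperCentralSeries G (i + 1),
      f (x * y) = f x + f y) ∧
    (∀ x ∈ Subgroup.upperCentralSeries G i, f x = 0) ∧
    (∃ x ∈ Subgroup.upperCentralSeries G (i + 1), f x ≠ 0) ∧
    ∀ x ∈ Subgroup.upperCentralSeries G (i + 1), f (φ x) = μ * f x

/-- `φ` is Anosov: no eigenvalue has absolute value one. -/
def Anosov {G : Type} [Group G] (φ : MulAut G) : Prop :=
  ∀ μ : ℂ, IsEigenvalue φ μ → ‖μ‖ ≠ 1

variable (ψ : MulAut N)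

/-- `gv` as a homomorphism -/
def gvH : V →+ V := AddMonoidHom.mk' (gv ψ) (gv_add ψ)

/-- `hX` as a homomorphism -/
def hXH : SH →+ SH := AddMonoidHom.mk' (hX ψ) (hX_add ψ)

theorem gvH_apply (v : V) : gvH ψ v = gv ψ v := rfl
theorem hXH_apply (v : SH) : hXH ψ v = hX ψ v := rfl

theorem smul_split (r : R) (v : V) : r • v = r.re • v + r.im • (I • v) := by
  funext i
  show r * v i = r.re • v i + r.im • (I * v i)
  rw [zsmul_eq_mul, zsmul_eq_mul]
  have h : r = (r.re : R) + (r.im : R) * I := by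
    apply Zsqrtd.ext <;> simp [I]
  conv_lhs => rw [h]
  ring

/-- the square of the map on the vectors is linear -/
def GLm : V →ₗ[R] V where
  toFun v := gvH ψ (gvH ψ v)
  map_add' v w := by rw [map_add, map_add]
  map_smul' r v := by
    show gvH ψ (gvH ψ (r • v)) = r • gvH ψ (gvH ψ v)
    rw [smul_split r v, smul_split r (gvH ψ (gvH ψ v))]
    rw [map_add, map_add, map_zsmul, map_zsmul, map_zsmul, map_zsmul]
    have h : gvH ψ (gvH ψ (I • v)) = I • gvH ψ (gvH ψ v) := gg_I ψ v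
    rw [h]

/-- the matrix -/
noncomputable def Am : Mt := LinearMap.toMatrix' (GLm ψ)

theorem Am_mulVec (v : V) : Am ψ *ᵥ v = gv ψ (gv ψ v) := by
  unfold Am
  rw [LinearMap.toMatrix'_mulVec]
  rfl

theorem Am_mul : Am ψ * Am ψ⁻¹ = 1 := by
  unfold Am
  rw [← LinearMap.toMatrix'_comp]
  have h : GLm ψ ∘ₗ GLm ψ⁻¹ = LinearMap.id := by
    apply LinearMap.ext
    intro v
    show gv ψ (gv ψ (gv ψ⁻¹ (gv ψ⁻¹ v))) = v
    rw [gv_inv', gv_inv']
  rw [h, LinearMap.toMatrix'_id]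

theorem norm_det : ‖GaussianInt.toComplex (Am ψ).det‖ = 1 := by
  have h1 : IsUnit (Am ψ).det := by
    have h := congrArg Matrix.det (Am_mul ψ)
    rw [Matrix.det_mul, Matrix.det_one] at h
    exact IsUnit.of_mul_eq_one _ h
  have h2 := (Zsqrtd.norm_eq_one_iff).2 h1
  have h3 : ((Am ψ).det.norm : ℝ) = 1 := by
    have h4 : (0 : ℤ) ≤ (Am ψ).det.norm := GaussianInt.norm_nonneg _
    have h5 : (Am ψ).det.norm = 1 := by omega
    rw [h5]
    norm_num
  rw [GaussianInt.intCast_real_norm] at h3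
  rw [Complex.normSq_eq_norm_sq] at h3
  have h6 : (0 : ℝ) ≤ ‖GaussianInt.toComplex (Am ψ).det‖ := norm_nonneg _
  nlinarith

/-- the first vector of the basis -/
def e1 : V := ![1, 0]
/-- the second vector of the basis -/
def e2 : V := ![0, 1]

theorem two_X (X : SH) : (2 : ℤ) • X = (-(X.1 0 0).im) • omS e1 (I • e1)
    + (2 * (X.1 0 1).re) • omS e1 e2 + (-2 * (X.1 0 1).im) • omS e1 (I • e2)
    + (-(X.1 1 1).im) • omS e2 (I • e2) := by
  obtain ⟨X, hX⟩ := X
  rw [mem_SH] at hX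
  have h00 := hX 0 0
  have h10 := hX 1 0
  have h11 := hX 1 1
  apply Subtype.ext
  simp only [Submodule.coe_add, Submodule.coe_smul, omS_val]
  have r00 : (X 0 0).re = 0 := by
    have := congrArg Zsqrtd.re h00
    simp at this
    omega
  have r11 : (X 1 1).re = 0 := by
    have := congrArg Zsqrtd.re h11
    simp at this
    omega
  have r10 : (X 1 0).re = - (X 0 1).re := by
    have := congrArg Zsqrtd.re h10
    simp at this
    omega
  have i10 : (X 1 0).im = (X 0 1).im := by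
    have := congrArg Zsqrtd.im h10
    simp at this
    omega
  funext i j
  show (2 : ℤ) • X i j = (-(X 0 0).im) • om e1 (I • e1) i j
    + (2 * (X 0 1).re) • om e1 e2 i j + (-2 * (X 0 1).im) • om e1 (I • e2) i j
    + (-(X 1 1).im) • om e2 (I • e2) i j
  simp only [om_apply, zsmul_eq_mul]
  fin_cases i <;> fin_cases j <;> apply Zsqrtd.ext <;> simp [e1, e2, I, r00, r11, r10, i10] <;> ring

theorem hh_eq (X : SH) : hX ψ (hX ψ X) = cj (Am ψ) X := by
  have ho : ∀ v w : V, hXH ψ (hXH ψ (omS v w)) = cj (Am ψ) (omS v w) := by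
    intro v w
    rw [← omS_mulVec, Am_mulVec, Am_mulVec, hXH_apply, hXH_apply, hX_omS, hX_omS]
  have h2 : hXH ψ (hXH ψ ((2 : ℤ) • X)) = cj (Am ψ) ((2 : ℤ) • X) := by
    rw [two_X X]
    simp only [map_add, map_zsmul, ho]
  rw [map_zsmul, map_zsmul, map_zsmul, two_smul, two_smul, ← two_nsmul, ← two_nsmul] at h2
  exact two_inj h2

/-- the complex matrix -/
noncomputable def Mc (A : Mt) : Matrix (Fin 2) (Fin 2) ℂ := A.map GaussianInt.toComplex

theorem Mc_mul (A B : Mt) : Mc (A * B) = Mc A * Mc B := by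
  unfold Mc
  rw [Matrix.map_mul]

theorem Mc_star (A : Mt) : Mc (Aᴴ) = (Mc A)ᴴ := by
  funext i j
  show GaussianInt.toComplex (star (A j i)) = star (GaussianInt.toComplex (A j i))
  rw [GaussianInt.toComplex_star]
  rfl

theorem Mc_det (A : Mt) : (Mc A).det = GaussianInt.toComplex A.det := by
  unfold Mc
  rw [RingHom.map_det]
  rfl

theorem exists_eig (M : Matrix (Fin 2) (Fin 2) ℂ) : ∃ (μ1 μ2 : ℂ) (a b : Fin 2 → ℂ),
    a ≠ 0 ∧ b ≠ 0 ∧ a ᵥ* M = μ1 • a ∧ b ᵥ* M = μ2 • b ∧ μ1 * μ2 = M.det := by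
  obtain ⟨s, hs⟩ := IsAlgClosed.exists_pow_nat_eq (M.trace ^ 2 - 4 * M.det) (n := 2) (by norm_num)
  have h : ∀ μ : ℂ, μ ^ 2 - M.trace * μ + M.det = 0 → ∃ a : Fin 2 → ℂ, a ≠ 0 ∧ a ᵥ* M = μ • a := by
    intro μ hμ
    have hd : (M - μ • 1).det = 0 := by
      rw [← hμ, Matrix.det_fin_two, Matrix.det_fin_two, Matrix.trace_fin_two]
      simp
      ring
    obtain ⟨a, ha, h2⟩ := exists_vecMul_eq_zero_iff.2 hd
    refine ⟨a, ha, ?_⟩
    rw [Matrix.vecMul_sub, Matrix.vecMul_smul, Matrix.vecMul_one, sub_eq_zero] at h2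
    exact h2
  obtain ⟨a, ha, ha2⟩ := h ((M.trace + s) / 2) (by linear_combination hs / 4)
  obtain ⟨b, hb, hb2⟩ := h ((M.trace - s) / 2) (by linear_combination hs / 4)
  exact ⟨_, _, a, b, ha, hb, ha2, hb2, by linear_combination - hs / 4⟩

/-- the functional `X ↦ a X b*` -/
noncomputable def f0 (a b : Fin 2 → ℂ) (X : SH) : ℂ := a ⬝ᵥ (Mc X.1 *ᵥ star b)

theorem f0_add (a b : Fin 2 → ℂ) (X Y : SH) : f0 a b (X + Y) = f0 a b X + f0 a b Y := by
  unfold f0
  have h : Mc (X + Y : SH).1 = Mc X.1 + Mc Y.1 := by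
    funext i j
    show GaussianInt.toComplex (X.1 i j + Y.1 i j) = _
    rw [map_add]
    rfl
  rw [h, Matrix.add_mulVec, dotProduct_add]

theorem f0_cj {A : Mt} {a b : Fin 2 → ℂ} {μ1 μ2 : ℂ} (ha : a ᵥ* Mc A = μ1 • a)
    (hb : b ᵥ* Mc A = μ2 • b) (X : SH) :
    f0 a b (cj A X) = μ1 * star μ2 * f0 a b X := by
  unfold f0
  rw [cj_val, Mc_mul, Mc_mul, Mc_star, ← Matrix.mulVec_mulVec, ← Matrix.mulVec_mulVec,
    Matrix.dotProduct_mulVec, ha, ← Matrix.star_vecMul, hb, star_smul, Matrix.mulVec_smul,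
    smul_dotProduct, dotProduct_smul, smul_eq_mul, smul_eq_mul]
  ring

/-- an explicit skew-Hermitian matrix -/
def Es (α β γ δ : ℤ) : SH := ⟨!![⟨0, α⟩, ⟨β, γ⟩; ⟨-β, γ⟩, ⟨0, δ⟩], by
  rw [mem_SH]
  intro i j
  fin_cases i <;> fin_cases j <;> apply Zsqrtd.ext <;> simp⟩

theorem f0_ne {a b : Fin 2 → ℂ} (ha : a ≠ 0) (hb : b ≠ 0) : ∃ X, f0 a b X ≠ 0 := by
  by_contra hcon
  push Not at hcon
  have h : ∀ α β γ δ : ℤ, a 0 * ((α * Complex.I) * star (b 0) + (β + γ * Complex.I) * star (b 1))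
      + a 1 * ((-β + γ * Complex.I) * star (b 0) + (δ * Complex.I) * star (b 1)) = 0 := by
    intro α β γ δ
    have h1 := hcon (Es α β γ δ)
    simpa [f0, Es, Mc, Matrix.mulVec, dotProduct, Fin.sum_univ_two, GaussianInt.toComplex_def]
      using h1
  have hI := Complex.I_ne_zero
  have h1 := h 1 0 0 0
  have h2 := h 0 1 0 0
  have h3 := h 0 0 1 0
  have h4 := h 0 0 0 1
  push_cast at h1 h2 h3 h4
  have g1 : a 0 * star (b 0) = 0 := by
    have : Complex.I * (a 0 * star (b 0)) = 0 := by linear_combination h1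
    exact (mul_eq_zero.1 this).resolve_left hI
  have g4 : a 1 * star (b 1) = 0 := by
    have : Complex.I * (a 1 * star (b 1)) = 0 := by linear_combination h4
    exact (mul_eq_zero.1 this).resolve_left hI
  have g2 : a 0 * star (b 1) = 0 := by
    have : 2 * Complex.I * (a 0 * star (b 1)) = 0 := by linear_combination h3 + Complex.I * h2
    exact (mul_eq_zero.1 this).resolve_left (by simp)
  have g3 : a 1 * star (b 0) = 0 := by
    have : 2 * Complex.I * (a 1 * star (b 0)) = 0 := by linear_combination h3 - Complex.I * h2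
    exact (mul_eq_zero.1 this).resolve_left (by simp)
  by_cases h0 : a 0 = 0
  · have h11 : a 1 ≠ 0 := by
      intro h11
      apply ha
      funext i
      fin_cases i
      · exact h0
      · exact h11
    apply hb
    funext i
    fin_cases i
    · exact star_eq_zero.1 ((mul_eq_zero.1 g3).resolve_left h11)
    · exact star_eq_zero.1 ((mul_eq_zero.1 g4).resolve_left h11)
  · apply hb
    funext i
    fin_cases i
    · exact star_eq_zero.1 ((mul_eq_zero.1 g1).resolve_left h0)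
    · exact star_eq_zero.1 ((mul_eq_zero.1 g2).resolve_left h0)

/-- an eigenfunction on the centre gives an eigenvalue -/
theorem isEig {f : SH → ℂ} {ν : ℂ} (hf : ∀ X Y, f (X + Y) = f X + f Y) (hne : ∃ X, f X ≠ 0)
    (he : ∀ X, f (hX ψ X) = ν * f X) : IsEigenvalue ψ ν := by
  have hf0 : f 0 = 0 := by
    have := hf 0 0
    rwa [add_zero, left_eq_add] at this
  have hmem : ∀ x : N, x ∈ Subgroup.upperCentralSeries N (0 + 1) ↔ x.v = 0 := by
    intro x
    rw [zero_add, Subgroup.upperCentralSeries_one, mem_center]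
  refine ⟨0, fun x => f x.X, ?_, ?_, ?_, ?_⟩
  · intro x hx y hy
    rw [hmem] at hx hy
    show f (x.X + y.X + omS x.v y.v) = _
    rw [hx, omS_zero_left, add_zero, hf]
  · intro x hx
    rw [Subgroup.upperCentralSeries_zero, Subgroup.mem_bot] at hx
    rw [hx]
    exact hf0
  · obtain ⟨X, hX⟩ := hne
    exact ⟨N.c X, (hmem _).2 rfl, hX⟩
  · intro x hx
    rw [hmem] at hx
    have hx' : x = N.c x.X := by
      apply N.ext
      · exact hx
      · rfl
    show f (ψ x).X = ν * f x.X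
    rw [hx', psi_c]
    exact he _

theorem exists_eigenvalue : ∃ μ : ℂ, IsEigenvalue ψ μ ∧ ‖μ‖ = 1 := by
  obtain ⟨μ1, μ2, a, b, ha, hb, ha2, hb2, hd⟩ := exists_eig (Mc (Am ψ))
  have hnorm : ‖μ1 * star μ2‖ = 1 := by
    rw [norm_mul, norm_star, ← norm_mul, hd, Mc_det, norm_det]
  have hff : ∀ X, f0 a b (hX ψ (hX ψ X)) = μ1 * star μ2 * f0 a b X := by
    intro X
    rw [hh_eq, f0_cj ha2 hb2]
  obtain ⟨ν, hν⟩ := IsAlgClosed.exists_pow_nat_eq (μ1 * star μ2) (n := 2) (by norm_num)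
  have hνn : ‖ν‖ = 1 := by
    have h := congrArg norm hν
    rw [norm_pow, hnorm] at h
    exact (pow_eq_one_iff_of_nonneg (norm_nonneg _) (by norm_num)).1 h
  by_cases hz : ∀ X, f0 a b (hX ψ X) + ν * f0 a b X = 0
  · refine ⟨-ν, isEig ψ (f0_add a b) (f0_ne ha hb) ?_, by rw [norm_neg, hνn]⟩
    intro X
    linear_combination hz X
  · push Not at hz
    refine ⟨ν, isEig ψ (f := fun X => f0 a b (hX ψ X) + ν * f0 a b X) ?_ hz ?_, hνn⟩
    · intro X Y
      rw [hX_add, f0_add, f0_add]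
      ring
    · intro X
      rw [hff, ← hν]
      ring

theorem not_anosov : ¬ Anosov ψ := by
  intro h
  obtain ⟨μ, h1, h2⟩ := exists_eigenvalue ψ
  exact h μ h1 h2

end Pool.Agent.Q104.TA
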