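import Mathlib
import Pool.Agent.Q104.TA.Fix

/-!
The automorphism `act U0` is tame.
-/

set_option autoImplicit false

namespace Pool.Agent.Q104.TA

open Matrix

/-- The set of the `φ`-conjugacy classes of a group. -/
def TwistedClasses {G : Type} [Group G] (φ : G → G) : Type :=
  Quot fun x y : G => ∃ z : G, x = z * y * (φ z)⁻¹

/-- `φ` is tame: all positive powers of `φ` have finitely many twisted conjugacy classes. -/
def Tame {G : Type} [Group G] (φ : MulAut G) : Prop :=
  ∀ n : ℕ, 0 < n → Finite (TwistedClasses (φ ^ n))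

theorem act_pow (n : ℕ) (a : N) : ((act U0 ^ n) a).v = A0 ^ n *ᵥ a.v ∧
    ((act U0 ^ n) a).X = cj (A0 ^ n) a.X := by
  rw [← map_pow, act_v, act_X]
  exact ⟨rfl, rfl⟩

/-- `v ↦ v - Bv` -/
def fv (B : Mt) : V →ₗ[ℤ] V where
  toFun v := v - B *ᵥ v
  map_add' v w := by
    rw [Matrix.mulVec_add]
    abel
  map_smul' m v := by
    rw [Matrix.mulVec_smul, smul_sub]
    rfl

/-- `X ↦ X - BXB*` -/
def fX (B : Mt) : SH →ₗ[ℤ] SH where
  toFun X := X - cj B X
  map_add' v w := by
    rw [map_add]
    abel
  map_smul' m v := by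
    rw [map_zsmul, smul_sub]
    rfl

theorem tame : Tame (act U0) := by
  intro n hn
  set B : Mt := A0 ^ n with hB
  have h1 : Function.Injective (fv B) := by
    rw [injective_iff_map_eq_zero]
    intro v hv
    exact fix_v hn (sub_eq_zero.1 hv).symm
  have h2 : Function.Injective (fX B) := by
    rw [injective_iff_map_eq_zero]
    intro v hv
    exact fix_X hn (sub_eq_zero.1 hv).symm
  have f1 := finite_coker (fv B) h1
  have f2 := finite_coker (fX B) h2
  let g : (V ⧸ LinearMap.range (fv B)) × (SH ⧸ LinearMap.range (fX B)) →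
      TwistedClasses (act U0 ^ n) := fun p => Quot.mk _ ⟨p.1.out, p.2.out⟩
  refine Finite.of_surjective g ?_
  intro q
  induction q using Quot.ind with
  | mk y =>
    have e1 : ∃ u : V, u - B *ᵥ u = (Submodule.Quotient.mk y.v :
        V ⧸ LinearMap.range (fv B)).out - y.v := by
      have : (Submodule.Quotient.mk (Submodule.Quotient.mk y.v :
        V ⧸ LinearMap.range (fv B)).out : V ⧸ LinearMap.range (fv B))
          = Submodule.Quotient.mk y.v := Quotient.out_eq _
      rw [Submodule.Quotient.eq] at this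
      exact this
    obtain ⟨u, hu⟩ := e1
    set s1 : V := (Submodule.Quotient.mk y.v : V ⧸ LinearMap.range (fv B)).out with hs1
    set y1 : N := N.l u * y * ((act U0 ^ n) (N.l u))⁻¹ with hy1
    have hy1v : y1.v = s1 := by
      rw [hy1, N.mul_v, N.mul_v, N.inv_v, (act_pow n (N.l u)).1, N.l_v, ← hB]
      have : s1 = (u - B *ᵥ u) + y.v := by
        rw [hu]
        abel
      rw [this]
      abel
    have q1 : (Quot.mk _ y1 : TwistedClasses (act U0 ^ n)) = Quot.mk _ y :=
      Quot.sound ⟨N.l u, rfl⟩
    clear_value y1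
    clear hy1
    have e2 : ∃ Z : SH, Z - cj B Z = (Submodule.Quotient.mk y1.X :
        SH ⧸ LinearMap.range (fX B)).out - y1.X := by
      have : (Submodule.Quotient.mk (Submodule.Quotient.mk y1.X :
        SH ⧸ LinearMap.range (fX B)).out : SH ⧸ LinearMap.range (fX B))
          = Submodule.Quotient.mk y1.X := Quotient.out_eq _
      rw [Submodule.Quotient.eq] at this
      exact this
    obtain ⟨Z, hZ⟩ := e2
    refine ⟨(Submodule.Quotient.mk y.v, Submodule.Quotient.mk y1.X), ?_⟩
    rw [← q1]
    apply Quot.sound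
    refine ⟨N.c Z, ?_⟩
    apply N.ext
    · show (Submodule.Quotient.mk y.v : V ⧸ LinearMap.range (fv B)).out = _
      rw [N.mul_v, N.mul_v, N.inv_v, (act_pow n (N.c Z)).1, N.c_v, hy1v]
      simp
      rfl
    · show (Submodule.Quotient.mk y1.X : SH ⧸ LinearMap.range (fX B)).out = _
      rw [N.mul_X, N.mul_X, N.inv_X, N.inv_v, (act_pow n (N.c Z)).1, (act_pow n (N.c Z)).2, N.c_v,
        N.c_X, Matrix.mulVec_zero, neg_zero, omS_zero_left, omS_zero_right, ← hB]
      have : (Submodule.Quotient.mk y1.X : SH ⧸ LinearMap.range (fX B)).out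
          = (Z - cj B Z) + y1.X := by
        rw [hZ]
        abel
      rw [this]
      abel

end Pool.Agent.Q104.TA
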